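import Mathlib

/-!
MP_0b9f2e_nt, Q1: `M_k ≥ (3/8) k` for every `k ≥ 1`, so `liminf M_k / k > 0` and the conjunction
asked for in Q1 is false.
-/

set_option autoImplicit false

namespace Pool.Agent.Results.MP_0b9f2e_nt.LargeImage

open Finset

/-- `f` (restricted to `[k]`) is a logarithmic function of length `k`. -/
def IsLogarithmic (k : ℕ) (f : ℕ → ZMod k) : Prop :=
  ∀ a b : ℕ, 1 ≤ a → 1 ≤ b → a * b ≤ k → f (a * b) = f a + f b

/-- `M_k`, the maximum of `|f([k])|` over all logarithmic functions `f` of length `k`. -/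
noncomputable def M (k : ℕ) : ℕ :=
  sSup {m | ∃ f : ℕ → ZMod k, IsLogarithmic k f ∧ m = (f '' Set.Icc 1 k).ncard}

/-- `R_k`, the largest `R` with `1 ≤ R ≤ k` such that some logarithmic function of length `k` is
injective on the `R`-smooth elements of `[k]`. -/
noncomputable def R (k : ℕ) : ℕ :=
  sSup {r | 1 ≤ r ∧ r ≤ k ∧ ∃ f : ℕ → ZMod k, IsLogarithmic k f ∧
    Set.InjOn f {n | 1 ≤ n ∧ n ≤ k ∧ ∀ p : ℕ, p.Prime → p ∣ n → p ≤ r}}

/-! ### The number of squarefree integers in `[k]` is at least `k / 2` -/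

theorem sq_sum (n : ℕ) : ∑ m ∈ Finset.Icc 1 n, (1 : ℚ) / ((2 * (m : ℚ) + 1) ^ 2) ≤
    1 / 4 - 1 / (4 * ((n : ℚ) + 1)) := by
  induction n with
  | zero => norm_num
  | succ n ih =>
    rw [Finset.sum_Icc_succ_top (by omega)]
    have h1 : (1 : ℚ) / ((2 * ((n + 1 : ℕ) : ℚ) + 1) ^ 2) ≤
        1 / (4 * ((n : ℚ) + 1)) - 1 / (4 * (((n + 1 : ℕ) : ℚ) + 1)) := by
      push_cast
      rw [div_sub_div _ _ (by positivity) (by positivity), div_le_div_iff₀ (by positivity) (by positivity)]
      nlinarith [sq_nonneg ((n : ℚ) + 1), (Nat.cast_nonneg n : (0 : ℚ) ≤ n)]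
    push_cast at h1 ⊢
    linarith

theorem card_nonsqfree (k : ℕ) :
    2 * ((Finset.Icc 1 k).filter (fun n => ¬ Squarefree n)).card ≤ k := by
  classical
  have hsub : (Finset.Icc 1 k).filter (fun n => ¬ Squarefree n) ⊆
      (Finset.Icc 1 k).filter (fun n => 4 ∣ n) ∪
        (Finset.Icc 1 k).biUnion (fun m => (Finset.Icc 1 k).filter (fun n => (2 * m + 1) ^ 2 ∣ n)) := by
    intro n hn
    rw [Finset.mem_filter, Finset.mem_Icc] at hn
    obtain ⟨⟨h1, h2⟩, h3⟩ := hn
    rw [Nat.squarefree_iff_prime_squarefree] at h3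
    push Not at h3
    obtain ⟨p, hp, hpn⟩ := h3
    rw [Finset.mem_union]
    rcases hp.eq_two_or_odd' with h | h
    · left
      rw [Finset.mem_filter, Finset.mem_Icc]
      subst h
      exact ⟨⟨h1, h2⟩, by simpa using hpn⟩
    · right
      obtain ⟨m, hm⟩ := h
      rw [Finset.mem_biUnion]
      have hm1 : 1 ≤ m := by
        rcases Nat.eq_zero_or_pos m with h0 | h0
        · subst h0; rw [hm] at hp; exact absurd hp (by norm_num)
        · exact h0
      have hle : p * p ≤ k := (Nat.le_of_dvd h1 hpn).trans h2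
      refine ⟨m, ?_, ?_⟩
      · rw [Finset.mem_Icc]; refine ⟨hm1, ?_⟩; nlinarith
      · rw [Finset.mem_filter, Finset.mem_Icc]
        refine ⟨⟨h1, h2⟩, ?_⟩
        rw [← hm, sq]; exact hpn
  have hcard : ∀ d : ℕ, 0 < d → ((((Finset.Icc 1 k).filter (fun n => d ∣ n)).card : ℕ) : ℚ) ≤ (k : ℚ) / d := by
    intro d hd
    have : ((Finset.Icc 1 k).filter (fun n => d ∣ n)).card = k / d := by
      have := Nat.Ioc_filter_dvd_card_eq_div k d
      have e : Finset.Ioc 0 k = Finset.Icc 1 k := by ext; simp [Finset.mem_Ioc, Finset.mem_Icc]; omega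
      rwa [e] at this
    rw [this]
    exact Nat.cast_div_le
  have h1 : ((((Finset.Icc 1 k).filter (fun n => ¬ Squarefree n)).card : ℕ) : ℚ) ≤
      (k : ℚ) / 4 + ∑ m ∈ Finset.Icc 1 k, (k : ℚ) / ((2 * m + 1) ^ 2) := by
    have hc := (Finset.card_le_card hsub).trans ((Finset.card_union_le _ _).trans
      (Nat.add_le_add_left Finset.card_biUnion_le _))
    have hc' : ((((Finset.Icc 1 k).filter (fun n => ¬ Squarefree n)).card : ℕ) : ℚ) ≤
        (((Finset.Icc 1 k).filter (fun n => 4 ∣ n)).card : ℚ) +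
        ∑ m ∈ Finset.Icc 1 k, (((Finset.Icc 1 k).filter (fun n => (2 * m + 1) ^ 2 ∣ n)).card : ℚ) := by
      exact_mod_cast hc
    refine hc'.trans (add_le_add ?_ (Finset.sum_le_sum ?_))
    · have := hcard 4 (by norm_num); exact_mod_cast this
    · intro m _
      have := hcard ((2 * m + 1) ^ 2) (by positivity)
      push_cast at this
      exact this
  have h2 : ∑ m ∈ Finset.Icc 1 k, (k : ℚ) / ((2 * m + 1) ^ 2) ≤ (k : ℚ) / 4 := by
    have e : ∑ m ∈ Finset.Icc 1 k, (k : ℚ) / ((2 * m + 1) ^ 2) =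
        (k : ℚ) * ∑ m ∈ Finset.Icc 1 k, (1 : ℚ) / ((2 * (m : ℚ) + 1) ^ 2) := by
      rw [Finset.mul_sum]; apply Finset.sum_congr rfl; intro m _; ring
    rw [e]
    have := sq_sum k
    have h4 : (0 : ℚ) ≤ 1 / (4 * ((k : ℚ) + 1)) := by positivity
    have hk : (0 : ℚ) ≤ k := Nat.cast_nonneg k
    calc (k : ℚ) * _ ≤ k * (1 / 4) := mul_le_mul_of_nonneg_left (by linarith) hk
      _ = k / 4 := by ring
  have h3 : (2 : ℚ) * ((((Finset.Icc 1 k).filter (fun n => ¬ Squarefree n)).card : ℕ) : ℚ) ≤ k := by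
    linarith
  exact_mod_cast h3

/-- The squarefree elements of `[k]`. -/
def A (k : ℕ) : Finset ℕ := (Finset.Icc 1 k).filter (fun n => Squarefree n)

theorem card_A (k : ℕ) : k ≤ 2 * (A k).card := by
  have h1 := card_nonsqfree k
  have h2 := Finset.card_filter_add_card_filter_not (s := Finset.Icc 1 k) (fun n => Squarefree n)
  rw [Nat.card_Icc] at h2
  unfold A
  omega

theorem card_A_le (k : ℕ) : (A k).card ≤ k := by
  refine (Finset.card_filter_le _ _).trans ?_
  simp

/-! ### Random logarithmic functions -/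

/-- the completely additive function with value `g p` at the prime `p ≤ k` (and `0` at larger
primes) -/
def F {k : ℕ} (g : Fin (k + 1) → ZMod k) (n : ℕ) : ZMod k :=
  ∑ p : Fin (k + 1), (n.factorization p : ZMod k) * g p

theorem F_log {k : ℕ} (g : Fin (k + 1) → ZMod k) : IsLogarithmic k (F g) := by
  intro a b ha hb _
  unfold F
  rw [Nat.factorization_mul (by omega) (by omega), ← Finset.sum_add_distrib]
  apply Finset.sum_congr rfl
  intro p _
  simp only [Finsupp.add_apply]
  push_cast
  ring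

theorem F_add {k : ℕ} (g h : Fin (k + 1) → ZMod k) (n : ℕ) : F (g + h) n = F g n + F h n := by
  unfold F
  rw [← Finset.sum_add_distrib]
  apply Finset.sum_congr rfl
  intro p _
  simp only [Pi.add_apply]
  ring

/-- the difference of the values at `a` and `b`, as a homomorphism -/
def D (k a b : ℕ) : (Fin (k + 1) → ZMod k) →+ ZMod k where
  toFun g := F g a - F g b
  map_zero' := by simp [F]
  map_add' g h := by rw [F_add, F_add]; ring

theorem F_single {k : ℕ} (p : Fin (k + 1)) (c : ZMod k) (n : ℕ) :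
    F (Pi.single p c) n = (n.factorization p : ZMod k) * c := by
  unfold F
  rw [Finset.sum_eq_single p]
  · simp
  · intro q _ hq
    simp [hq]
  · simp

theorem D_surj {k a b : ℕ} (hk : 1 ≤ k) (ha : a ∈ A k) (hb : b ∈ A k) (hab : a ≠ b) :
    Function.Surjective (D k a b) := by
  rw [A, Finset.mem_filter, Finset.mem_Icc] at ha hb
  have ha0 : a ≠ 0 := by omega
  have hb0 : b ≠ 0 := by omega
  obtain ⟨p, hp⟩ : ∃ p, a.factorization p ≠ b.factorization p := by
    by_contra h
    push Not at h
    exact hab (Nat.eq_of_factorization_eq ha0 hb0 h)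
  have ha1 := ha.2.natFactorization_le_one p
  have hb1 := hb.2.natFactorization_le_one p
  have hpk : p < k + 1 := by
    rcases Nat.eq_zero_or_pos (a.factorization p) with h | h
    · have h' : 0 < b.factorization p := by omega
      have := Nat.le_of_mem_primeFactors (Nat.support_factorization b ▸ Finsupp.mem_support_iff.2 h'.ne')
      omega
    · have := Nat.le_of_mem_primeFactors (Nat.support_factorization a ▸ Finsupp.mem_support_iff.2 h.ne')
      omega
  intro z
  rcases Nat.eq_zero_or_pos (a.factorization p) with h | h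
  · have h' : b.factorization p = 1 := by omega
    refine ⟨Pi.single ⟨p, hpk⟩ (-z), ?_⟩
    show F _ a - F _ b = z
    rw [F_single, F_single]
    simp [h, h']
  · have h1 : a.factorization p = 1 := by omega
    have h' : b.factorization p = 0 := by omega
    refine ⟨Pi.single ⟨p, hpk⟩ z, ?_⟩
    show F _ a - F _ b = z
    rw [F_single, F_single]
    simp [h1, h']

theorem card_coll {k a b : ℕ} (hk : 1 ≤ k) [NeZero k] (ha : a ∈ A k) (hb : b ∈ A k) (hab : a ≠ b) :
    k * ((Finset.univ : Finset (Fin (k + 1) → ZMod k)).filter (fun g => F g a = F g b)).card =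
      Fintype.card (Fin (k + 1) → ZMod k) := by
  classical
  have hs := D_surj hk ha hb hab
  have h1 : Fintype.card (Fin (k + 1) → ZMod k) =
      ∑ z : ZMod k, ((Finset.univ : Finset (Fin (k + 1) → ZMod k)).filter (fun g => D k a b g = z)).card := by
    rw [← Finset.card_univ]
    exact Finset.card_eq_sum_card_fiberwise (fun _ _ => Finset.mem_univ _)
  have h2 : ∀ z : ZMod k,
      ((Finset.univ : Finset (Fin (k + 1) → ZMod k)).filter (fun g => D k a b g = z)).card =
      ((Finset.univ : Finset (Fin (k + 1) → ZMod k)).filter (fun g => F g a = F g b)).card := by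
    intro z
    obtain ⟨g0, hg0⟩ := hs z
    symm
    refine Finset.card_bij (fun g _ => g + g0) ?_ ?_ ?_
    · intro g hg
      rw [Finset.mem_filter] at hg ⊢
      refine ⟨Finset.mem_univ _, ?_⟩
      rw [map_add, hg0]
      have : D k a b g = 0 := sub_eq_zero.2 hg.2
      rw [this, zero_add]
    · intro g _ g' _ h
      exact add_right_cancel h
    · intro g hg
      rw [Finset.mem_filter] at hg
      refine ⟨g - g0, ?_, by simp⟩
      rw [Finset.mem_filter]
      refine ⟨Finset.mem_univ _, ?_⟩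
      have : D k a b (g - g0) = 0 := by rw [map_sub, hg.2, hg0, sub_self]
      exact sub_eq_zero.1 this
  rw [h1, Finset.sum_congr rfl (fun z _ => h2 z)]
  simp [ZMod.card]

/-- number of colliding ordered pairs -/
def coll {k : ℕ} (g : Fin (k + 1) → ZMod k) : ℕ :=
  ((A k).offDiag.filter (fun x => F g x.1 = F g x.2)).card

theorem exists_few (k : ℕ) (hk : 1 ≤ k) : ∃ g : Fin (k + 1) → ZMod k,
    k * coll g ≤ (A k).card * (A k).card := by
  classical
  haveI : NeZero k := ⟨by omega⟩
  by_contra hcon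
  push Not at hcon
  have h1 : ∑ g : Fin (k + 1) → ZMod k, k * coll g =
      (A k).offDiag.card * Fintype.card (Fin (k + 1) → ZMod k) := by
    have e : ∀ g : Fin (k + 1) → ZMod k, coll g =
        ∑ x ∈ (A k).offDiag, if F g x.1 = F g x.2 then 1 else 0 := by
      intro g; unfold coll; rw [Finset.card_filter]
    rw [← Finset.mul_sum, Finset.sum_congr rfl (fun g _ => e g), Finset.sum_comm, Finset.mul_sum]
    rw [Finset.sum_congr rfl (g := fun _ => Fintype.card (Fin (k + 1) → ZMod k))]
    · simp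
    · intro x hx
      rw [Finset.mem_offDiag] at hx
      rw [← Finset.card_filter]
      exact card_coll hk hx.1 hx.2.1 hx.2.2
  have h2 : ∑ _g : Fin (k + 1) → ZMod k, (A k).card * (A k).card <
      ∑ g : Fin (k + 1) → ZMod k, k * coll g :=
    Finset.sum_lt_sum_of_nonempty Finset.univ_nonempty (fun g _ => hcon g)
  rw [h1, Finset.sum_const, smul_eq_mul, Finset.card_univ, mul_comm] at h2
  have h3 := Nat.lt_of_mul_lt_mul_right h2
  rw [Finset.offDiag_card] at h3
  omega

/-- `|S| ≤ |f(S)| + (number of colliding ordered pairs) / 2` -/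
theorem card_le_image (S : Finset ℕ) {β : Type*} [DecidableEq β] (f : ℕ → β) :
    2 * S.card ≤ 2 * (S.image f).card + (S.offDiag.filter (fun x => f x.1 = f x.2)).card := by
  classical
  induction S using Finset.induction_on with
  | empty => simp
  | insert a S ha ih =>
    by_cases h : f a ∈ S.image f
    · obtain ⟨b, hb, hba⟩ := Finset.mem_image.1 h
      have hab : a ≠ b := fun h => ha (h ▸ hb)
      have h1 : (insert a S).image f = S.image f := by
        rw [Finset.image_insert, Finset.insert_eq_of_mem h]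
      have h2 : insert (a, b) (insert (b, a) (S.offDiag.filter (fun x => f x.1 = f x.2))) ⊆
          (insert a S).offDiag.filter (fun x => f x.1 = f x.2) := by
        intro x hx
        rw [Finset.mem_insert, Finset.mem_insert] at hx
        rw [Finset.mem_filter, Finset.mem_offDiag]
        rcases hx with rfl | rfl | hx
        · exact ⟨⟨Finset.mem_insert_self _ _, Finset.mem_insert_of_mem hb, hab⟩, hba.symm⟩
        · exact ⟨⟨Finset.mem_insert_of_mem hb, Finset.mem_insert_self _ _, hab.symm⟩, hba⟩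
        · rw [Finset.mem_filter, Finset.mem_offDiag] at hx
          exact ⟨⟨Finset.mem_insert_of_mem hx.1.1, Finset.mem_insert_of_mem hx.1.2.1, hx.1.2.2⟩, hx.2⟩
      have h3 := Finset.card_le_card h2
      have n1 : (b, a) ∉ S.offDiag.filter (fun x => f x.1 = f x.2) := by
        rw [Finset.mem_filter, Finset.mem_offDiag]; tauto
      have n2 : (a, b) ∉ insert (b, a) (S.offDiag.filter (fun x => f x.1 = f x.2)) := by
        rw [Finset.mem_insert, Finset.mem_filter, Finset.mem_offDiag]
        rintro (h | h)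
        · exact hab (Prod.ext_iff.1 h).1
        · exact ha h.1.1
      rw [Finset.card_insert_of_notMem n2, Finset.card_insert_of_notMem n1] at h3
      rw [h1, Finset.card_insert_of_notMem ha]
      omega
    · have h2 : S.offDiag.filter (fun x => f x.1 = f x.2) ⊆
          (insert a S).offDiag.filter (fun x => f x.1 = f x.2) := by
        intro x hx
        rw [Finset.mem_filter, Finset.mem_offDiag] at hx ⊢
        exact ⟨⟨Finset.mem_insert_of_mem hx.1.1, Finset.mem_insert_of_mem hx.1.2.1, hx.1.2.2⟩, hx.2⟩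
      have h3 := Finset.card_le_card h2
      rw [Finset.image_insert, Finset.card_insert_of_notMem h, Finset.card_insert_of_notMem ha]
      omega

theorem M_bdd (k : ℕ) : ∀ m ∈ {m | ∃ f : ℕ → ZMod k, IsLogarithmic k f ∧
    m = (f '' Set.Icc 1 k).ncard}, m ≤ k := by
  rintro m ⟨f, -, rfl⟩
  refine (Set.ncard_image_le (Set.finite_Icc 1 k)).trans ?_
  rw [← Finset.coe_Icc, Set.ncard_coe_finset]
  simp

theorem M_le (k : ℕ) : M k ≤ k :=
  csSup_le ⟨_, ⟨fun _ => 0, fun _ _ _ _ _ => by simp, rfl⟩⟩ (M_bdd k)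

/-- `M_k ≥ (3/8) k`. -/
theorem M_ge (k : ℕ) (hk : 1 ≤ k) : 3 * k ≤ 8 * M k := by
  classical
  obtain ⟨g, hg⟩ := exists_few k hk
  have h1 : (F g '' Set.Icc 1 k).ncard ≤ M k :=
    le_csSup ⟨k, M_bdd k⟩ ⟨F g, F_log g, rfl⟩
  have h2 : ((A k).image (F g)).card ≤ (F g '' Set.Icc 1 k).ncard := by
    rw [← Set.ncard_coe_finset]
    apply Set.ncard_le_ncard
    · rw [Finset.coe_image]
      apply Set.image_mono
      intro x hx
      rw [A, Finset.mem_coe, Finset.mem_filter, Finset.mem_Icc] at hx
      exact hx.1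
    · exact (Set.finite_Icc 1 k).image _
  have h3 := card_le_image (A k) (F g)
  have h4 := card_A k
  have h5 := card_A_le k
  have h6 : k * ((A k).offDiag.filter (fun x => F g x.1 = F g x.2)).card ≤
      (A k).card * (A k).card := hg
  set c := ((A k).offDiag.filter (fun x => F g x.1 = F g x.2)).card
  set a := (A k).card
  have h7 : 2 * a ≤ 2 * M k + c := by omega
  -- `2 M ≥ 2 a - a²/k ≥ 3k/4`
  have h8 : k * (2 * a) ≤ k * (2 * M k) + a * a := by
    calc k * (2 * a) ≤ k * (2 * M k + c) := Nat.mul_le_mul_left _ h7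
      _ = k * (2 * M k) + k * c := by ring
      _ ≤ _ := Nat.add_le_add_left h6 _
  have h9 : (3 : ℤ) * k ≤ 8 * M k := by
    have hk' : (0 : ℤ) < k := by exact_mod_cast hk
    have h8' : (k : ℤ) * (2 * a) ≤ k * (2 * M k) + a * a := by exact_mod_cast h8
    have h4' : (k : ℤ) ≤ 2 * a := by exact_mod_cast h4
    have h5' : (a : ℤ) ≤ k := by exact_mod_cast h5
    have : (k : ℤ) * (3 * k) ≤ k * (8 * M k) := by
      nlinarith [mul_nonneg (sub_nonneg.2 h4') (sub_nonneg.2 h5')]
    exact le_of_mul_le_mul_left this hk'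
  exact_mod_cast h9

/-- For every `k ≥ 1` one has `M_k ≥ (3/8) k`; in particular `liminf M_k / k ≥ 3/8` is strictly
positive, and the statement of Q1 (both lower limits are `0`) is false. -/
theorem result :
    (∀ k : ℕ, 1 ≤ k → (3 / 8 : ℝ) * k ≤ M k) ∧
    (3 / 8 : ℝ) ≤ Filter.liminf (fun k : ℕ => (M k : ℝ) / k) Filter.atTop ∧
    ¬ (Filter.liminf (fun k : ℕ => (M k : ℝ) / k) Filter.atTop = 0 ∧
      Filter.liminf (fun k : ℕ => (R k : ℝ) / k) Filter.atTop = 0) := by
  have h1 : ∀ k : ℕ, 1 ≤ k → (3 / 8 : ℝ) * k ≤ M k := by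
    intro k hk
    have := M_ge k hk
    have h' : (3 : ℝ) * k ≤ 8 * M k := by exact_mod_cast this
    linarith
  have h2 : (3 / 8 : ℝ) ≤ Filter.liminf (fun k : ℕ => (M k : ℝ) / k) Filter.atTop := by
    apply Filter.le_liminf_of_le
    · apply Filter.IsCoboundedUnder.of_frequently_le (a := 1)
      apply Filter.Eventually.frequently
      filter_upwards with k
      have := M_le k
      have h' : (M k : ℝ) ≤ k := by exact_mod_cast this
      exact div_le_one_of_le₀ h' (Nat.cast_nonneg k)
    · filter_upwards [Filter.eventually_ge_atTop 1] with k hk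
      have hk' : (0 : ℝ) < k := by exact_mod_cast hk
      rw [le_div_iff₀ hk']
      exact h1 k hk
  refine ⟨h1, h2, ?_⟩
  rintro ⟨h3, -⟩
  rw [h3] at h2
  norm_num at h2

end Pool.Agent.Results.MP_0b9f2e_nt.LargeImage
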